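import Pool.Agent.helper28.EG.SpecP

/-!
# Project p2x: row PSH: near a parabolic point the complement of the basin is not dense on large scales
-/

set_option autoImplicit false

open Complex Metric Set Filter Topology MeasureTheory
open WP (it)

noncomputable section

namespace EG

/-- in the sector the real part is very negative. -/
theorem PSH_neg {T : ℂ} {R κ : ℝ} (hR : 0 < R) (hκ : κ ≤ 1 / 10) (h1 : T.re ≤ R) (h2 : |T.im| ≤ κ * ‖T‖) (h3 : 2 * R < ‖T‖) :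
    T.re ≤ -(9 / 10) * ‖T‖ := by
  have hT : 0 < ‖T‖ := by linarith
  have hsq : ‖T‖ ^ 2 = T.re ^ 2 + T.im ^ 2 := by
    rw [Complex.sq_norm, Complex.normSq_apply]
    ring
  have h4 : |T.im| ≤ 1 / 10 * ‖T‖ := h2.trans (mul_le_mul_of_nonneg_right hκ hT.le)
  have h5 : T.im ^ 2 ≤ (1 / 10 * ‖T‖) ^ 2 := by
    rw [← sq_abs T.im]
    exact pow_le_pow_left₀ (abs_nonneg _) h4 2
  have h6 : (9 / 10 * ‖T‖) ^ 2 ≤ T.re ^ 2 := by nlinarith
  have h7 : 9 / 10 * ‖T‖ ≤ |T.re| := by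
    rw [← sq_abs T.re] at h6
    exact abs_le_of_sq_le_sq' h6 (abs_nonneg _) |>.2
  by_contra hcon
  push Not at hcon
  rcases le_or_gt 0 T.re with h8 | h8
  · rw [abs_of_nonneg h8] at h7
    linarith
  · rw [abs_of_neg h8] at h7
    linarith

/-- the distance to `p` grows. -/
theorem PSH_grow {α p x H gx : ℂ} {ν : ℕ} (hα : α ≠ 0) (hx : x ≠ p) (hH : ‖H - α‖ ≤ 1 / 10 * ‖α‖)
    (hg : gx = x + (x - p) ^ (ν + 1) * H) (hT : (PET_t α p ν x).re ≤ -(9 / 10) * ‖PET_t α p ν x‖) :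
    4 / 5 * (‖x - p‖ / ‖PET_t α p ν x‖) ≤ ‖gx - p‖ - ‖x - p‖ := by
  have hxp : x - p ≠ 0 := sub_ne_zero.2 hx
  have hd : 0 < ‖x - p‖ := norm_pos_iff.2 hxp
  have hA : 0 < ‖α‖ := norm_pos_iff.2 hα
  set X : ℂ := α * (x - p) ^ ν with hX
  have hX0 : X ≠ 0 := mul_ne_zero hα (pow_ne_zero _ hxp)
  have hXn : 0 < ‖X‖ := norm_pos_iff.2 hX0
  have hTX : PET_t α p ν x = -X⁻¹ := rfl
  rw [hTX] at hT ⊢
  rw [norm_neg, norm_inv] at hT ⊢
  have hre : (9 / 10) * ‖X‖ ≤ X.re := by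
    have h1 : (-X⁻¹).re = -(X.re / ‖X‖ ^ 2) := by
      rw [Complex.neg_re, Complex.inv_re, ← Complex.normSq_eq_norm_sq]
    rw [h1] at hT
    have h2 : (9 / 10) * ‖X‖⁻¹ ≤ X.re / ‖X‖ ^ 2 := by linarith
    rw [le_div_iff₀ (by positivity)] at h2
    have h3 : (9 / 10) * ‖X‖⁻¹ * ‖X‖ ^ 2 = 9 / 10 * ‖X‖ := by
      field_simp
    linarith
  have h1 : gx - p = (x - p) * (1 + X + (H - α) * (x - p) ^ ν) := by
    rw [hg, hX, pow_succ]
    ring
  have h2 : 1 + 4 / 5 * ‖X‖ ≤ ‖1 + X + (H - α) * (x - p) ^ ν‖ := by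
    have h3 : ‖(H - α) * (x - p) ^ ν‖ ≤ 1 / 10 * ‖X‖ := by
      rw [hX, norm_mul, norm_mul, ← mul_assoc]
      exact mul_le_mul_of_nonneg_right hH (norm_nonneg _)
    have h4 : 1 + X.re ≤ ‖1 + X‖ := by
      have := Complex.re_le_norm (1 + X)
      simpa using this
    have h5 : ‖1 + X‖ ≤ ‖1 + X + (H - α) * (x - p) ^ ν‖ + ‖(H - α) * (x - p) ^ ν‖ := by
      have := norm_sub_le (1 + X + (H - α) * (x - p) ^ ν) ((H - α) * (x - p) ^ ν)
      simpa using this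
    linarith
  have h6 := mul_le_mul_of_nonneg_left h2 hd.le
  rw [← norm_mul, ← h1] at h6
  rw [div_inv_eq_mul]
  linarith

/-- the coordinate is continuous off `p`. -/
theorem PSH_cont {α p x : ℂ} {ν : ℕ} (hα : α ≠ 0) (hx : x ≠ p) : ContinuousAt (PET_t α p ν) x := by
  unfold PET_t
  refine ContinuousAt.neg (ContinuousAt.inv₀ (by fun_prop) ?_)
  exact mul_ne_zero hα (pow_ne_zero _ (sub_ne_zero.2 hx))

theorem PSH_ne {α p x : ℂ} {ν : ℕ} (hν : 1 ≤ ν) (h : 0 < ‖PET_t α p ν x‖) : x ≠ p := by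
  rintro rfl
  unfold PET_t at h
  rw [sub_self, zero_pow (by omega)] at h
  simp at h

/-- large coordinate: near `p`. -/
theorem PSH_small {α p : ℂ} {ν : ℕ} (hν : 1 ≤ ν) (hα : α ≠ 0) {δ : ℝ} (hδ : 0 < δ) {z : ℂ}
    (h : (‖α‖ * δ ^ ν)⁻¹ < ‖PET_t α p ν z‖) : ‖z - p‖ < δ := by
  have hA : 0 < ‖α‖ := norm_pos_iff.2 hα
  have h0 : 0 < (‖α‖ * δ ^ ν)⁻¹ := by positivity
  have hz : z - p ≠ 0 := sub_ne_zero.2 (PSH_ne hν (h0.trans h))
  have hz' : 0 < ‖z - p‖ := norm_pos_iff.2 hz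
  rw [PET_norm] at h
  have h2 : ‖α‖ * ‖z - p‖ ^ ν < ‖α‖ * δ ^ ν := (inv_lt_inv₀ (by positivity) (by positivity)).1 h
  have h3 : ‖z - p‖ ^ ν < δ ^ ν := lt_of_mul_lt_mul_left h2 hA.le
  exact lt_of_pow_lt_pow_left₀ ν hδ.le h3

/-- the attracted set is backward invariant. -/
theorem PSH_back {g : ℂ → ℂ} {p z : ℂ} (j : ℕ) (h : Tendsto (fun m => g^[m] (g^[j] z)) atTop (𝓝 p)) :
    Tendsto (fun m => g^[m] z) atTop (𝓝 p) := by
  rw [← tendsto_add_atTop_iff_nat j]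
  refine h.congr fun m => ?_
  rw [Function.iterate_add_apply]

/-- the orbit of a point which is not interior to the attracted set stays in the sector. -/
theorem PSH_sector {g : ℂ → ℂ} {p α : ℂ} {ν : ℕ} (hν : 1 ≤ ν) (hα : α ≠ 0) (hg : Continuous g) {κ R : ℝ} (hR : 0 < R)
    (hP : ∀ z : ℂ, z ≠ p → R < ‖PET_t α p ν z‖ → (R < (PET_t α p ν z).re ∨ κ * ‖PET_t α p ν z‖ < |(PET_t α p ν z).im|) →
      Tendsto (fun m => g^[m] z) atTop (𝓝 p))
    {y : ℂ} (hy : y ∉ interior {z : ℂ | Tendsto (fun m => g^[m] z) atTop (𝓝 p)}) (j : ℕ) (hj : R < ‖PET_t α p ν (g^[j] y)‖) :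
    (PET_t α p ν (g^[j] y)).re ≤ R ∧ |(PET_t α p ν (g^[j] y)).im| ≤ κ * ‖PET_t α p ν (g^[j] y)‖ := by
  by_contra hcon
  rw [not_and_or, not_le, not_le] at hcon
  have hne : g^[j] y ≠ p := PSH_ne hν (hR.trans hj)
  have hc : ContinuousAt (PET_t α p ν) (g^[j] y) := PSH_cont hα hne
  have hgj : ContinuousAt (g^[j]) y := (hg.iterate j).continuousAt
  apply hy
  rw [mem_interior_iff_mem_nhds]
  have hcc : ContinuousAt (fun z => PET_t α p ν (g^[j] z)) y := ContinuousAt.comp (f := g^[j]) (g := PET_t α p ν) hc hgj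
  have e1 : ∀ᶠ z in 𝓝 y, g^[j] z ≠ p := hgj.eventually_ne hne
  have e2 : ∀ᶠ z in 𝓝 y, R < ‖PET_t α p ν (g^[j] z)‖ := hcc.norm.eventually (lt_mem_nhds hj)
  have e3 : ∀ᶠ z in 𝓝 y, (R < (PET_t α p ν (g^[j] z)).re ∨ κ * ‖PET_t α p ν (g^[j] z)‖ < |(PET_t α p ν (g^[j] z)).im|) := by
    rcases hcon with h | h
    · have h1 : ContinuousAt (fun z => (PET_t α p ν (g^[j] z)).re) y := Complex.continuous_re.continuousAt.comp hcc
      filter_upwards [h1.eventually (lt_mem_nhds h)] with z hz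
      exact Or.inl hz
    · have h1 : ContinuousAt (fun z => |(PET_t α p ν (g^[j] z)).im|) y := (Complex.continuous_im.continuousAt.comp hcc).abs
      have h2 : ContinuousAt (fun z => κ * ‖PET_t α p ν (g^[j] z)‖) y := hcc.norm.const_mul κ
      filter_upwards [h2.eventually_lt h1 h] with z hz
      exact Or.inr hz
  filter_upwards [e1, e2, e3] with z h1 h2 h3
  exact PSH_back j (hP _ h1 h2 h3)

/-- TRACKING: a nearby orbit moves parallel to the orbit of `y` in the coordinate. -/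
theorem PSH_track {g : ℂ → ℂ} {p α : ℂ} {ν : ℕ} (hν : 1 ≤ ν) {a M r₀ : ℝ} (ha : 0 < a) (ha1 : a ≤ 1 / 10) (hM : 0 < M)
    (hr₀M : M * r₀ ≤ 1 / 20)
    (hPTL : ∀ y z : ℂ, y ≠ p → ‖z - y‖ ≤ a * ‖y - p‖ →
      ‖PET_t α p ν z - PET_t α p ν y + ν * PET_t α p ν y * ((z - y) / (y - p))‖ ≤ 1 / 10 * (ν * ‖PET_t α p ν y‖ * (‖z - y‖ / ‖y - p‖)))
    (hPER : ∀ z ∈ ball p r₀, ∀ z' ∈ ball p r₀, z ≠ p → z' ≠ p →
      ‖(PET_t α p ν (g z) - PET_t α p ν z) - (PET_t α p ν (g z') - PET_t α p ν z')‖ ≤ M * ‖z - z'‖)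
    (hLip : ∀ z ∈ ball p r₀, ∀ z' ∈ ball p r₀, ‖g z - g z'‖ ≤ 2 * ‖z - z'‖)
    (y z : ℂ) (J : ℕ) (hne : ∀ j ≤ J, g^[j] y ≠ p) (hd : ∀ j ≤ J, ‖g^[j] y - p‖ < r₀ / 2)
    (hT : ∀ j ≤ J, 0 < ‖PET_t α p ν (g^[j] y)‖)
    (hu : ∀ j ≤ J, 11 / 9 * ‖PET_t α p ν z - PET_t α p ν y‖ ≤ a / 2 * ‖PET_t α p ν (g^[j] y)‖)
    (hgrow : ∀ j < J, 4 / 5 * (‖g^[j] y - p‖ / ‖PET_t α p ν (g^[j] y)‖) ≤ ‖g^[j + 1] y - p‖ - ‖g^[j] y - p‖)
    (hz : ‖z - y‖ ≤ a / 2 * ‖y - p‖) :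
    ∀ j ≤ J, ‖g^[j] z - g^[j] y‖ ≤ a / 2 * ‖g^[j] y - p‖ ∧
      ‖PET_t α p ν (g^[j] z) - PET_t α p ν (g^[j] y) - (PET_t α p ν z - PET_t α p ν y)‖ ≤
        2 * M * (‖g^[j] y - p‖ - ‖y - p‖) * ‖PET_t α p ν z - PET_t α p ν y‖ := by
  have hν' : (1 : ℝ) ≤ ν := by exact_mod_cast hν
  set u := PET_t α p ν z - PET_t α p ν y with hud
  have hun : 0 ≤ ‖u‖ := norm_nonneg _
  intro j
  induction j with
  | zero =>
    intro _
    refine ⟨by simpa using hz, ?_⟩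
    simp [hud]
  | succ j ih =>
    intro hj
    have hj' : j ≤ J := by omega
    obtain ⟨i1, i2⟩ := ih hj'
    have hdj := hd j hj'
    have hdj0 : 0 < ‖g^[j] y - p‖ := norm_pos_iff.2 (sub_ne_zero.2 (hne j hj'))
    have hy0 : 0 ≤ ‖y - p‖ := norm_nonneg _
    have hTj := hT j hj'
    have hgr := hgrow j (by omega)
    have hqpos : 0 < ‖g^[j] y - p‖ / ‖PET_t α p ν (g^[j] y)‖ := by positivity
    -- the key lower bound of the coordinate
    have key : ∀ i ≤ J, ‖g^[i] z - g^[i] y‖ ≤ a * ‖g^[i] y - p‖ →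
        ‖PET_t α p ν (g^[i] z) - PET_t α p ν (g^[i] y) - u‖ ≤ 2 * M * (‖g^[i] y - p‖ - ‖y - p‖) * ‖u‖ →
        ‖g^[i] z - g^[i] y‖ ≤ 11 / 9 * ‖u‖ * (‖g^[i] y - p‖ / ‖PET_t α p ν (g^[i] y)‖) := by
      intro i hi h1 h2
      have hi0 : 0 < ‖g^[i] y - p‖ := norm_pos_iff.2 (sub_ne_zero.2 (hne i hi))
      have hTi := hT i hi
      have h3 := hPTL (g^[i] y) (g^[i] z) (hne i hi) h1
      have h4 : ‖(ν : ℂ) * PET_t α p ν (g^[i] y) * ((g^[i] z - g^[i] y) / (g^[i] y - p))‖ =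
          ν * ‖PET_t α p ν (g^[i] y)‖ * (‖g^[i] z - g^[i] y‖ / ‖g^[i] y - p‖) := by
        rw [norm_mul, norm_mul, norm_div, Complex.norm_natCast]
      have h5 : ‖(ν : ℂ) * PET_t α p ν (g^[i] y) * ((g^[i] z - g^[i] y) / (g^[i] y - p))‖ ≤
          ‖PET_t α p ν (g^[i] z) - PET_t α p ν (g^[i] y) + ν * PET_t α p ν (g^[i] y) * ((g^[i] z - g^[i] y) / (g^[i] y - p))‖ +
          ‖PET_t α p ν (g^[i] z) - PET_t α p ν (g^[i] y)‖ := by
        have := norm_sub_le (PET_t α p ν (g^[i] z) - PET_t α p ν (g^[i] y) + ν * PET_t α p ν (g^[i] y) * ((g^[i] z - g^[i] y) / (g^[i] y - p)))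
          (PET_t α p ν (g^[i] z) - PET_t α p ν (g^[i] y))
        simpa using this
      rw [h4] at h5
      have h6 : ‖PET_t α p ν (g^[i] z) - PET_t α p ν (g^[i] y)‖ ≤ 11 / 10 * ‖u‖ := by
        have h7 : ‖PET_t α p ν (g^[i] z) - PET_t α p ν (g^[i] y)‖ ≤
            ‖PET_t α p ν (g^[i] z) - PET_t α p ν (g^[i] y) - u‖ + ‖u‖ := by
          have := norm_add_le (PET_t α p ν (g^[i] z) - PET_t α p ν (g^[i] y) - u) u
          simpa using this
        have h8 : 2 * M * (‖g^[i] y - p‖ - ‖y - p‖) * ‖u‖ ≤ 1 / 10 * ‖u‖ := by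
          refine mul_le_mul_of_nonneg_right ?_ hun
          have := hd i hi
          nlinarith
        linarith
      have h7 : ν * ‖PET_t α p ν (g^[i] y)‖ * (‖g^[i] z - g^[i] y‖ / ‖g^[i] y - p‖) ≤ 11 / 9 * ‖u‖ := by linarith
      have h8 : ‖PET_t α p ν (g^[i] y)‖ * (‖g^[i] z - g^[i] y‖ / ‖g^[i] y - p‖) ≤
          ν * ‖PET_t α p ν (g^[i] y)‖ * (‖g^[i] z - g^[i] y‖ / ‖g^[i] y - p‖) := by
        rw [mul_assoc]
        have : 0 ≤ ‖PET_t α p ν (g^[i] y)‖ * (‖g^[i] z - g^[i] y‖ / ‖g^[i] y - p‖) := by positivity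
        nlinarith
      have h9 := h8.trans h7
      have h10 : ‖g^[i] z - g^[i] y‖ = ‖PET_t α p ν (g^[i] y)‖ * (‖g^[i] z - g^[i] y‖ / ‖g^[i] y - p‖) *
          (‖g^[i] y - p‖ / ‖PET_t α p ν (g^[i] y)‖) := by
        field_simp
      rw [h10]
      exact mul_le_mul_of_nonneg_right h9 (by positivity)
    have hx1 : ‖g^[j] z - g^[j] y‖ ≤ a * ‖g^[j] y - p‖ := by nlinarith
    have k1 := key j hj' hx1 i2
    -- the points are in the ball
    have hyb : g^[j] y ∈ ball p r₀ := by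
      rw [mem_ball, dist_eq_norm]
      linarith
    have hxb : g^[j] z ∈ ball p r₀ := by
      rw [mem_ball, dist_eq_norm]
      have h1 : ‖g^[j] z - p‖ ≤ ‖g^[j] z - g^[j] y‖ + ‖g^[j] y - p‖ := norm_sub_le_norm_sub_add_norm_sub _ _ _
      nlinarith
    have hxne : g^[j] z ≠ p := by
      intro h
      rw [h, norm_sub_rev] at i1
      nlinarith
    -- the second estimate
    have e2 : ‖PET_t α p ν (g^[j + 1] z) - PET_t α p ν (g^[j + 1] y) - u‖ ≤ 2 * M * (‖g^[j + 1] y - p‖ - ‖y - p‖) * ‖u‖ := by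
      have h1 := hPER _ hxb _ hyb hxne (hne j hj')
      rw [← Function.iterate_succ_apply' g j z, ← Function.iterate_succ_apply' g j y] at h1
      have h2 : ‖PET_t α p ν (g^[j + 1] z) - PET_t α p ν (g^[j + 1] y) - u‖ ≤
          ‖(PET_t α p ν (g^[j + 1] z) - PET_t α p ν (g^[j] z)) - (PET_t α p ν (g^[j + 1] y) - PET_t α p ν (g^[j] y))‖ +
          ‖PET_t α p ν (g^[j] z) - PET_t α p ν (g^[j] y) - u‖ := by
        refine (le_of_eq ?_).trans (norm_add_le _ _)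
        congr 1
        ring
      have h3 : M * ‖g^[j] z - g^[j] y‖ ≤ 2 * M * (‖g^[j + 1] y - p‖ - ‖g^[j] y - p‖) * ‖u‖ := by
        have h4 : ‖g^[j] z - g^[j] y‖ ≤ 2 * (‖g^[j + 1] y - p‖ - ‖g^[j] y - p‖) * ‖u‖ := by
          refine k1.trans ?_
          nlinarith
        have := mul_le_mul_of_nonneg_left h4 hM.le
        linarith
      have h5 : 2 * M * (‖g^[j + 1] y - p‖ - ‖y - p‖) * ‖u‖ =
          2 * M * (‖g^[j + 1] y - p‖ - ‖g^[j] y - p‖) * ‖u‖ + 2 * M * (‖g^[j] y - p‖ - ‖y - p‖) * ‖u‖ := by ring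
      linarith
    refine ⟨?_, e2⟩
    have h1 : ‖g^[j + 1] z - g^[j + 1] y‖ ≤ a * ‖g^[j + 1] y - p‖ := by
      rw [Function.iterate_succ_apply', Function.iterate_succ_apply'] at *
      have h2 := hLip _ hxb _ hyb
      nlinarith
    have k2 := key (j + 1) hj h1 e2
    have hd1 : 0 < ‖g^[j + 1] y - p‖ := norm_pos_iff.2 (sub_ne_zero.2 (hne (j + 1) hj))
    have hT1 := hT (j + 1) hj
    have hu1 := hu (j + 1) hj
    refine k2.trans ?_
    rw [mul_div_assoc', div_le_iff₀ hT1]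
    nlinarith

/-- the local facts near `p`. -/
theorem PSH_loc {g : ℂ → ℂ} {p : ℂ} {ν : ℕ} {h : ℂ → ℂ} (hp : Par g p ν h) :
    ∃ r : ℝ, 0 < r ∧ (∀ z ∈ ball p r, z ≠ p → ‖PET_t (h p) p ν (g z) - PET_t (h p) p ν z - ν‖ ≤ 1 / 10) ∧
      (∀ z ∈ ball p r, g z = z + (z - p) ^ (ν + 1) * h z ∧ ‖h z - h p‖ ≤ 1 / 10 * ‖h p‖) ∧
      (∀ z ∈ ball p r, ∀ z' ∈ ball p r, ‖g z - g z'‖ ≤ 2 * ‖z - z'‖) := by
  have hA : 0 < ‖h p‖ := norm_pos_iff.2 hp.h0
  have c1 := PET_c1 hp.nu hp.an hp.h0 hp.eq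
  have c1' : ∀ᶠ z in 𝓝[≠] p, ‖PET_t (h p) p ν (g z) - PET_t (h p) p ν z - ν‖ ≤ 1 / 10 := by
    have := (Metric.tendsto_nhds.1 c1) (1 / 10) (by norm_num)
    filter_upwards [this] with z hz
    rw [dist_eq_norm] at hz
    exact hz.le
  have c2 : ∀ᶠ z in 𝓝 p, ‖h z - h p‖ ≤ 1 / 10 * ‖h p‖ := by
    have := (Metric.tendsto_nhds.1 hp.an.continuousAt.tendsto) (1 / 10 * ‖h p‖) (by positivity)
    filter_upwards [this] with z hz
    rw [dist_eq_norm] at hz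
    exact hz.le
  have hdp : deriv g p = 1 := by
    have e1 := Filter.EventuallyEq.deriv_eq (show g =ᶠ[𝓝 p] fun z => z + (z - p) ^ (ν + 1) * h z from hp.eq)
    rw [e1]
    have h3 : HasDerivAt (fun z => z + (z - p) ^ (ν + 1) * h z)
        (1 + (((ν + 1 : ℕ) : ℂ) * (p - p) ^ (ν + 1 - 1) * 1 * h p + (p - p) ^ (ν + 1) * deriv h p)) p :=
      (hasDerivAt_id p).add ((((hasDerivAt_id p).sub_const p).pow (ν + 1)).mul hp.an.differentiableAt.hasDerivAt)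
    rw [h3.deriv]
    have hν0 : ν ≠ 0 := by have := hp.nu; omega
    simp [hν0]
  have c3 : ∀ᶠ z in 𝓝 p, ‖deriv g z‖ ≤ 2 := by
    have h1 : ContinuousAt (deriv g) p := (hp.dif.analyticAt p).deriv.continuousAt
    have h2 : ContinuousAt (fun z => ‖deriv g z‖) p := h1.norm
    have h3 : ‖deriv g p‖ < 2 := by rw [hdp]; norm_num
    filter_upwards [h2.eventually (gt_mem_nhds h3)] with z hz
    exact hz.le
  obtain ⟨r, hr, hr'⟩ := Metric.eventually_nhds_iff.1 ((eventually_nhdsWithin_iff.1 c1').and (hp.eq.and (c2.and c3)))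
  refine ⟨r, hr, fun z hz hzp => (hr' hz).1 hzp, fun z hz => ⟨(hr' hz).2.1, (hr' hz).2.2.1⟩, ?_⟩
  intro z hz z' hz'
  exact (convex_ball p r).norm_image_sub_le_of_norm_deriv_le (fun x _ => hp.dif x) (fun x hx => (hr' hx).2.2.2) hz' hz

/-- the last position. -/
theorem PSH_end {x TJ : ℂ} {ρ C κ' RS : ℝ} (hρ0 : 0 < ρ) (hκ'0 : 0 < κ') (hκ'C : κ' * (C + 1) = 1 / 10)
    (hJ1 : ‖TJ‖ ≤ C * ρ) (f4 : |TJ.im| ≤ κ' * ‖TJ‖) (hfin : ‖x - TJ - I * (ρ : ℂ) / 2‖ ≤ 13 / 100 * ρ) (hb : RS ≤ ρ / 4 - 1) :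
    RS < ‖x‖ ∧ κ' * ‖x‖ < |x.im| := by
  have hI : ‖I * (ρ : ℂ) / 2‖ = ρ / 2 := by
    rw [norm_div, norm_mul, Complex.norm_I, Complex.norm_real, Real.norm_of_nonneg hρ0.le]
    simp
  have hκC : κ' * ‖TJ‖ ≤ 1 / 10 * ρ := by
    have h1 := mul_le_mul_of_nonneg_left hJ1 hκ'0.le
    have h2 : κ' * (C * ρ) = (κ' * (C + 1)) * ρ - κ' * ρ := by ring
    rw [hκ'C] at h2
    have h3 : 0 < κ' * ρ := by positivity
    linarith
  have h4 : (I * (ρ : ℂ) / 2).im = ρ / 2 := by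
    have e1 : I * (ρ : ℂ) / 2 = ((ρ / 2 : ℝ) : ℂ) * I := by push_cast; ring
    rw [e1, Complex.mul_I_im, Complex.ofReal_re]
  have him : 27 / 100 * ρ ≤ x.im := by
    have h1 := (Complex.abs_im_le_norm _).trans hfin
    have h2 := (abs_le.1 h1).1
    have h3 := (abs_le.1 (f4.trans hκC)).1
    rw [Complex.sub_im, Complex.sub_im, h4] at h2
    linarith
  have hnorm : ‖x‖ ≤ (C + 1) * ρ := by
    have h1 := norm_add₃_le (a := x - TJ - I * (ρ : ℂ) / 2) (b := TJ) (c := I * (ρ : ℂ) / 2)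
    have e1 : x - TJ - I * (ρ : ℂ) / 2 + TJ + I * (ρ : ℂ) / 2 = x := by ring
    rw [e1, hI] at h1
    linarith
  have hge : 27 / 100 * ρ ≤ ‖x‖ := him.trans ((le_abs_self _).trans (Complex.abs_im_le_norm _))
  refine ⟨by linarith, ?_⟩
  have h1 : κ' * ‖x‖ ≤ 1 / 10 * ρ := by
    have h2 := mul_le_mul_of_nonneg_left hnorm hκ'0.le
    have h3 : κ' * ((C + 1) * ρ) = κ' * (C + 1) * ρ := by ring
    rw [hκ'C] at h3
    linarith
  have h2 : x.im ≤ |x.im| := le_abs_self _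
  linarith

set_option maxHeartbeats 1000000 in
/-- **PSH**: at a point which is a limit of non attracted points the non attracted set is not dense on large scales. -/
theorem PSH (hPSC : PSC_stmt) (hPTL : PTL_stmt) (hPER : PER_stmt) : PSH_stmt := by
  intro g p ν h hp
  have hν := hp.nu
  have hν' : (1 : ℝ) ≤ ν := by exact_mod_cast hν
  have hν0 : (0 : ℝ) < ν := by linarith
  have hα : h p ≠ 0 := hp.h0
  have hA : 0 < ‖h p‖ := norm_pos_iff.2 hα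
  obtain ⟨a, ha, ha1, hPTL'⟩ := hPTL ν hν
  have hC : (0 : ℝ) < 10 / a := by positivity
  set C : ℝ := 10 / a with hCd
  have haC : a * C = 10 := by rw [hCd]; field_simp
  have hC10 : 100 ≤ C := by
    rw [hCd, le_div_iff₀ ha]
    linarith
  set κ' : ℝ := 1 / (10 * (C + 1)) with hκ'd
  have hκ'0 : 0 < κ' := by positivity
  have hκ'C : κ' * (C + 1) = 1 / 10 := by
    rw [hκ'd]
    field_simp
  have hκ'1 : κ' ≤ 1 / 10 := by nlinarith
  obtain ⟨RS, hRS, hS⟩ := hPSC g p ν h hp κ' hκ'0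
  obtain ⟨r₁, M, hr₁, hM, hPER'⟩ := hPER g p ν h hp
  obtain ⟨r₂, hr₂, hl1, hl2, hl3⟩ := PSH_loc hp
  set r₀ : ℝ := min (min r₁ r₂) (1 / (20 * M)) with hr₀d
  have hr₀ : 0 < r₀ := by positivity
  have hr₀1 : r₀ ≤ r₁ := (min_le_left _ _).trans (min_le_left _ _)
  have hr₀2 : r₀ ≤ r₂ := (min_le_left _ _).trans (min_le_right _ _)
  have hr₀M : M * r₀ ≤ 1 / 20 := by
    have h1 : r₀ ≤ 1 / (20 * M) := min_le_right _ _
    have h2 := mul_le_mul_of_nonneg_left h1 hM.le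
    have h3 : M * (1 / (20 * M)) = 1 / 20 := by field_simp
    linarith
  set R₁ : ℝ := (‖h p‖ * (r₀ / 2) ^ ν)⁻¹ with hR₁d
  have hR₁ : 0 < R₁ := by positivity
  set ρm : ℝ := 4 * (RS + R₁ + ν + 1) with hρmd
  have hρm : 0 < ρm := by positivity
  refine ⟨1 / (100 * C * ν), 2 * C * ρm, r₀, by positivity, by positivity, hr₀, ?_⟩
  intro y c hyp hyr hc hcd hL hy
  set t : ℂ → ℂ := PET_t (h p) p ν with htd
  have hyp' : y - p ≠ 0 := sub_ne_zero.2 hyp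
  have hd0 : 0 < ‖y - p‖ := norm_pos_iff.2 hyp'
  have hyb : y ∈ ball p r₀ := by rwa [mem_ball, dist_eq_norm]
  have hT0n : ‖t y‖ = (‖h p‖ * ‖y - p‖ ^ ν)⁻¹ := PET_norm _ _ _ _
  have hT0 : 0 < ‖t y‖ := by rw [hT0n]; positivity
  have hT0' : t y ≠ 0 := norm_pos_iff.1 hT0
  set ρ : ℝ := ‖t y‖ * c / (C * ‖y - p‖) with hρd
  have hρ0 : 0 < ρ := by positivity
  have hρ1 : C * ρ ≤ ‖t y‖ := by
    have h1 : C * ρ = ‖t y‖ * (c / ‖y - p‖) := by
      rw [hρd]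
      field_simp
    rw [h1]
    have h2 : c / ‖y - p‖ ≤ 1 := by
      rw [div_le_one hd0]
      exact hcd
    nlinarith
  have hρ2 : ρm ≤ ρ := by
    obtain ⟨e1, e2⟩ := hl2 y (ball_subset_ball hr₀2 hyb)
    have h1 : g y - y = (y - p) ^ (ν + 1) * h y := by rw [e1]; ring
    have h2 : 9 / 10 * ‖h p‖ ≤ ‖h y‖ := by
      have := norm_sub_norm_le (h p) (h p - h y)
      rw [sub_sub_cancel, norm_sub_rev (h p) (h y)] at this
      linarith
    have h3 : 9 / 10 * (‖y - p‖ / ‖t y‖) ≤ ‖g y - y‖ := by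
      rw [h1, norm_mul, norm_pow, hT0n, div_inv_eq_mul, pow_succ]
      have := mul_le_mul_of_nonneg_left h2 (by positivity : 0 ≤ ‖y - p‖ ^ ν * ‖y - p‖)
      linarith
    have h4 : 2 * C * ρm * (9 / 10 * (‖y - p‖ / ‖t y‖)) ≤ c := (mul_le_mul_of_nonneg_left h3 (by positivity)).trans hL
    rw [hρd, le_div_iff₀ (by positivity)]
    have h5 : ρm * (C * ‖y - p‖) = ‖t y‖ * (C * ρm * (‖y - p‖ / ‖t y‖)) := by
      field_simp
    rw [h5]
    refine mul_le_mul_of_nonneg_left ?_ hT0.le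
    have h6 : 0 < C * ρm * (‖y - p‖ / ‖t y‖) := by positivity
    linarith
  have hbigρ : RS + R₁ + ν + 1 ≤ ρ / 4 := by linarith
  have hCρ : 100 * ρ ≤ C * ρ := mul_le_mul_of_nonneg_right hC10 hρ0.le
  -- facts for one index
  have fact : ∀ j, C * ρ / 2 ≤ ‖t (g^[j] y)‖ → g^[j] y ≠ p ∧ ‖g^[j] y - p‖ < r₀ / 2 ∧
      (t (g^[j] y)).re ≤ -(9 / 10) * ‖t (g^[j] y)‖ ∧ |(t (g^[j] y)).im| ≤ κ' * ‖t (g^[j] y)‖ := by
    intro j hj
    have h1 : RS < ‖t (g^[j] y)‖ := by linarith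
    have h2 : 2 * RS < ‖t (g^[j] y)‖ := by linarith
    have h3 : R₁ < ‖t (g^[j] y)‖ := by linarith
    obtain ⟨s1, s2⟩ := PSH_sector hν hα hp.dif.continuous hRS hS hy j h1
    exact ⟨PSH_ne hν (by linarith : 0 < ‖PET_t (h p) p ν (g^[j] y)‖), PSH_small hν hα (by positivity) h3, PSH_neg hRS hκ'1 s1 s2 h2, s2⟩
  have step : ∀ j, C * ρ / 2 ≤ ‖t (g^[j] y)‖ → ‖t (g^[j + 1] y) - t (g^[j] y) - ν‖ ≤ 1 / 10 := by
    intro j hj
    obtain ⟨f1, f2, _⟩ := fact j hj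
    have h1 : g^[j] y ∈ ball p r₂ := by
      rw [mem_ball, dist_eq_norm]
      linarith
    have := hl1 _ h1 f1
    rwa [← Function.iterate_succ_apply' g j y] at this
  -- the index `J`
  have hex : ∃ j, ‖t (g^[j] y)‖ ≤ C * ρ := by
    by_contra hcon
    push Not at hcon
    have h1 : ∀ j : ℕ, (t y).re + j * (9 / 10) ≤ (t (g^[j] y)).re := by
      intro j
      induction j with
      | zero => simp
      | succ j ih =>
        have h2 := step j (by linarith [hcon j])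
        have h3 := (Complex.abs_re_le_norm _).trans h2
        have h4 := (abs_le.1 h3).1
        simp only [Complex.sub_re, Complex.natCast_re] at h4
        push_cast
        linarith
    obtain ⟨j, hj⟩ := exists_nat_gt (-(t y).re * 2)
    have h2 := h1 j
    have h3 := (fact j (by linarith [hcon j])).2.2.1
    have h4 : 0 ≤ ‖t (g^[j] y)‖ := norm_nonneg _
    have h5 : (0 : ℝ) ≤ j := by positivity
    linarith
  classical
  set J := Nat.find hex with hJd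
  have hJ1 : ‖t (g^[J] y)‖ ≤ C * ρ := Nat.find_spec hex
  have hJ2 : ∀ j < J, C * ρ < ‖t (g^[j] y)‖ := by
    intro j hj
    have := Nat.find_min hex hj
    push Not at this
    exact this
  have hbig : ∀ j ≤ J, C * ρ / 2 ≤ ‖t (g^[j] y)‖ := by
    intro j hj
    rcases Nat.lt_or_ge j J with h1 | h1
    · linarith [hJ2 j h1]
    · have hjJ : j = J := le_antisymm hj h1
      rcases Nat.eq_zero_or_pos j with h2 | h2
      · rw [h2]
        simp only [Function.iterate_zero, id_eq]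
        linarith
      · obtain ⟨i, rfl⟩ : ∃ i, j = i + 1 := ⟨j - 1, by omega⟩
        have h3 := hJ2 i (by omega)
        have h4 := step i (by linarith)
        have h5 : ‖t (g^[i] y)‖ ≤ ‖t (g^[i + 1] y)‖ + (ν + 1 / 10) := by
          have e1 : t (g^[i] y) = t (g^[i + 1] y) - (t (g^[i + 1] y) - t (g^[i] y) - ν) - ν := by ring
          calc ‖t (g^[i] y)‖ = ‖t (g^[i + 1] y) - (t (g^[i + 1] y) - t (g^[i] y) - ν) - ν‖ := by rw [← e1]
            _ ≤ ‖t (g^[i + 1] y) - (t (g^[i + 1] y) - t (g^[i] y) - ν)‖ + ‖(ν : ℂ)‖ := norm_sub_le _ _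
            _ ≤ ‖t (g^[i + 1] y)‖ + ‖t (g^[i + 1] y) - t (g^[i] y) - ν‖ + ‖(ν : ℂ)‖ := by gcongr; exact norm_sub_le _ _
            _ ≤ _ := by rw [Complex.norm_natCast]; linarith
        linarith
  -- the point `w`
  set c' : ℝ := c / (C * ν) with hc'd
  have hc' : 0 < c' := by positivity
  have hc'ρ : ν * ‖t y‖ * (c' / ‖y - p‖) = ρ := by
    rw [hc'd, hρd]
    field_simp
  have hc'a : c' ≤ a / 10 * ‖y - p‖ := by
    have h1 : c' ≤ c / C := by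
      rw [hc'd]
      refine div_le_div_of_nonneg_left hc.le hC ?_
      nlinarith
    have h2 : c / C = a / 10 * c := by
      rw [hCd]
      field_simp
    rw [h2] at h1
    have := mul_le_mul_of_nonneg_left hcd (by positivity : 0 ≤ a / 10)
    linarith
  have hc'c : c' ≤ c / 100 := by
    rw [hc'd]
    refine div_le_div_of_nonneg_left hc.le (by norm_num) ?_
    nlinarith
  have hκc : 1 / (100 * C * ν) * c = c' / 100 := by
    rw [hc'd]
    field_simp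
  set w : ℂ := y - I * (ρ : ℂ) * (y - p) / (2 * ν * t y) with hwd
  have hνC : (ν : ℂ) ≠ 0 := by exact_mod_cast hν0.ne'
  have hwy : ‖w - y‖ = c' / 2 := by
    have e1 : w - y = -(I * (ρ : ℂ) * (y - p) / (2 * ν * t y)) := by rw [hwd]; ring
    rw [e1, norm_neg, norm_div, norm_mul, norm_mul, norm_mul, norm_mul, Complex.norm_I, Complex.norm_real, Complex.norm_natCast,
      Real.norm_of_nonneg hρ0.le, ← hc'ρ]
    simp only [Complex.norm_ofNat]
    field_simp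
  have hwu : -(ν * t y * ((w - y) / (y - p))) = I * (ρ : ℂ) / 2 := by
    have e1 : w - y = -(I * (ρ : ℂ) * (y - p) / (2 * ν * t y)) := by rw [hwd]; ring
    rw [e1]
    field_simp
  refine ⟨w, ?_, ?_⟩
  · rw [hκc]
    intro z hz
    rw [mem_ball, dist_eq_norm] at hz ⊢
    have h1 : ‖z - y‖ ≤ ‖z - w‖ + ‖w - y‖ := norm_sub_le_norm_sub_add_norm_sub _ _ _
    linarith
  · intro z hz
    rw [hκc, mem_ball, dist_eq_norm] at hz
    have hzy : ‖z - y‖ ≤ 51 / 100 * c' := by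
      have h1 : ‖z - y‖ ≤ ‖z - w‖ + ‖w - y‖ := norm_sub_le_norm_sub_add_norm_sub _ _ _
      linarith
    have hzy2 : ‖z - y‖ ≤ a / 2 * ‖y - p‖ := by
      have : 0 < a * ‖y - p‖ := by positivity
      linarith
    have hzy3 : ‖z - y‖ ≤ a * ‖y - p‖ := by
      have : 0 < a * ‖y - p‖ := by positivity
      linarith
    -- the displacement `u`
    have hu1 : ‖(t z - t y) - I * (ρ : ℂ) / 2‖ ≤ 61 / 1000 * ρ := by
      have h1 := hPTL' (h p) p y z hα hyp hzy3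
      have h2 : ν * ‖t y‖ * (‖z - y‖ / ‖y - p‖) ≤ 51 / 100 * ρ := by
        rw [← hc'ρ]
        have h3 : ‖z - y‖ / ‖y - p‖ ≤ 51 / 100 * c' / ‖y - p‖ := div_le_div_of_nonneg_right hzy hd0.le
        have h4 := mul_le_mul_of_nonneg_left h3 (by positivity : 0 ≤ ν * ‖t y‖)
        have h5 : ν * ‖t y‖ * (51 / 100 * c' / ‖y - p‖) = 51 / 100 * (ν * ‖t y‖ * (c' / ‖y - p‖)) := by ring
        linarith
      have h3 : ‖ν * t y * ((z - w) / (y - p))‖ ≤ 1 / 100 * ρ := by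
        rw [norm_mul, norm_mul, norm_div, Complex.norm_natCast, ← hc'ρ]
        have h3 : ‖z - w‖ / ‖y - p‖ ≤ c' / 100 / ‖y - p‖ := div_le_div_of_nonneg_right hz.le hd0.le
        have h4 := mul_le_mul_of_nonneg_left h3 (by positivity : 0 ≤ ν * ‖t y‖)
        have h5 : ν * ‖t y‖ * (c' / 100 / ‖y - p‖) = 1 / 100 * (ν * ‖t y‖ * (c' / ‖y - p‖)) := by ring
        linarith
      have h4 : (t z - t y) - I * (ρ : ℂ) / 2 = (t z - t y + ν * t y * ((z - y) / (y - p))) - ν * t y * ((z - w) / (y - p)) := by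
        rw [← hwu]
        ring
      rw [h4]
      refine (norm_sub_le _ _).trans ?_
      have h5 : ‖t z - t y + ν * t y * ((z - y) / (y - p))‖ ≤ 1 / 10 * (ν * ‖t y‖ * (‖z - y‖ / ‖y - p‖)) := h1
      linarith
    have hI : ‖I * (ρ : ℂ) / 2‖ = ρ / 2 := by
      rw [norm_div, norm_mul, Complex.norm_I, Complex.norm_real, Real.norm_of_nonneg hρ0.le]
      simp
    have hu2 : ‖t z - t y‖ ≤ 6 / 10 * ρ := by
      have h1 := norm_add_le ((t z - t y) - I * (ρ : ℂ) / 2) (I * (ρ : ℂ) / 2)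
      rw [sub_add_cancel, hI] at h1
      linarith
    have htr := PSH_track (α := h p) hν ha ha1 hM hr₀M (fun y z h1 h2 => hPTL' (h p) p y z hα h1 h2)
      (fun z hz z' hz' h1 h2 => (hPER' z (ball_subset_ball hr₀1 hz) z' (ball_subset_ball hr₀1 hz') h1 h2).2)
      (fun z hz z' hz' => hl3 z (ball_subset_ball hr₀2 hz) z' (ball_subset_ball hr₀2 hz')) y z J
      (fun j hj => (fact j (hbig j hj)).1) (fun j hj => (fact j (hbig j hj)).2.1)
      (fun j hj => by have := hbig j hj; change 0 < ‖t (g^[j] y)‖; linarith)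
      (fun j hj => by
        have h1 := hbig j hj
        have h2 : a / 2 * (C * ρ / 2) = 5 / 2 * ρ := by
          have : a / 2 * (C * ρ / 2) = (a * C) * ρ / 4 := by ring
          rw [this, haC]
          ring
        have h3 := mul_le_mul_of_nonneg_left h1 (by positivity : 0 ≤ a / 2)
        change 11 / 9 * ‖t z - t y‖ ≤ a / 2 * ‖t (g^[j] y)‖
        linarith)
      (fun j hj => by
        obtain ⟨f1, f2, f3, _⟩ := fact j (hbig j hj.le)
        have h1 : g^[j] y ∈ ball p r₂ := by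
          rw [mem_ball, dist_eq_norm]
          linarith
        obtain ⟨e1, e2⟩ := hl2 _ h1
        rw [← Function.iterate_succ_apply' g j y] at e1
        exact PSH_grow hα f1 e2 e1 f3)
      hzy2 J le_rfl
    have htr2 : ‖t (g^[J] z) - t (g^[J] y) - (t z - t y)‖ ≤ 6 / 100 * ρ := by
      have h1 : ‖t (g^[J] z) - t (g^[J] y) - (t z - t y)‖ ≤ 2 * M * (‖g^[J] y - p‖ - ‖y - p‖) * ‖t z - t y‖ := htr.2
      have h2 := (fact J (hbig J le_rfl)).2.1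
      have h3 : 2 * M * (‖g^[J] y - p‖ - ‖y - p‖) ≤ 1 / 10 := by nlinarith
      have h4 := mul_le_mul_of_nonneg_right h3 (norm_nonneg (t z - t y))
      linarith
    obtain ⟨_, _, _, f4⟩ := fact J (hbig J le_rfl)
    have hfin : ‖t (g^[J] z) - t (g^[J] y) - I * (ρ : ℂ) / 2‖ ≤ 13 / 100 * ρ := by
      have e1 : t (g^[J] z) - t (g^[J] y) - I * (ρ : ℂ) / 2 =
          (t (g^[J] z) - t (g^[J] y) - (t z - t y)) + ((t z - t y) - I * (ρ : ℂ) / 2) := by ring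
      rw [e1]
      refine (norm_add_le _ _).trans ?_
      linarith
    obtain ⟨g1, g2⟩ := PSH_end hρ0 hκ'0 hκ'C hJ1 f4 hfin (by linarith : RS ≤ ρ / 4 - 1)
    exact PSH_back J (hS _ (PSH_ne hν (hRS.trans g1)) g1 (Or.inr g2))

end EG
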